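import Pool.Agent.H51.EI.TargetsB

/-!
# Board `exi_modules`, row DIFF: the entries near `X0`
-/

set_option autoImplicit false

open Polynomial Finset

namespace Pool.Agent.H1.EI.DIFF

open Pool.Agent.H25.EE (Idx Ix mlt nd s0 s1 hn EX exo)
open Pool.Agent.H51.EI

private theorem pow_diff (R : ℝ) (hR : 1 ≤ R) (x y : ℂ) (hx : ‖x‖ ≤ R) (hy : ‖y‖ ≤ R) (i : ℕ) :
    ‖x ^ i - y ^ i‖ ≤ ‖x - y‖ * (i * R ^ i) := by
  have hR0 : 0 ≤ R := by linarith
  induction i with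
  | zero => simp
  | succ i ih =>
    have e : x ^ (i + 1) - y ^ (i + 1) = x * (x ^ i - y ^ i) + (x - y) * y ^ i := by ring
    have h1 : ‖x * (x ^ i - y ^ i)‖ ≤ R * (‖x - y‖ * (i * R ^ i)) := by
      rw [norm_mul]
      exact mul_le_mul hx ih (norm_nonneg _) hR0
    have h2 : ‖(x - y) * y ^ i‖ ≤ ‖x - y‖ * R ^ i := by
      rw [norm_mul, norm_pow]
      exact mul_le_mul_of_nonneg_left (pow_le_pow_left₀ (norm_nonneg _) hy i) (norm_nonneg _)
    have h3 : 0 ≤ ‖x - y‖ * R ^ i := by positivity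
    have h5 : ‖x - y‖ * R ^ i ≤ R * (‖x - y‖ * R ^ i) := le_mul_of_one_le_left h3 hR
    rw [e]
    refine (norm_add_le _ _).trans ?_
    have h4 : ‖x - y‖ * (((i + 1 : ℕ) : ℝ) * R ^ (i + 1)) =
        R * (‖x - y‖ * (i * R ^ i)) + R * (‖x - y‖ * R ^ i) := by
      push_cast
      ring
    rw [h4]
    linarith

variable {O : Subring ℂ}

private theorem ev_sum (P : (↥O)[X]) (x : ℂ) :
    ev P x = ∑ i ∈ P.support, ((P.coeff i : O) : ℂ) * x ^ i := by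
  unfold ev toC
  rw [Polynomial.eval_map, Polynomial.eval₂_eq_sum, Polynomial.sum]
  rfl

private theorem ev_diff (R : ℝ) (hR : 1 ≤ R) (P : (↥O)[X]) (x y : ℂ) (hx : ‖x‖ ≤ R)
    (hy : ‖y‖ ≤ R) :
    ‖ev P x - ev P y‖ ≤ ‖x - y‖ * (plen P * (P.natDegree * R ^ P.natDegree)) := by
  rw [ev_sum, ev_sum, ← Finset.sum_sub_distrib]
  refine (norm_sum_le _ _).trans ?_
  have e : ‖x - y‖ * (plen P * (P.natDegree * R ^ P.natDegree)) =
      ∑ i ∈ P.support, ‖((P.coeff i : O) : ℂ)‖ * (‖x - y‖ * (P.natDegree * R ^ P.natDegree)) := by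
    unfold plen
    rw [← Finset.sum_mul]
    ring
  rw [e]
  refine Finset.sum_le_sum fun i hi => ?_
  rw [← mul_sub, norm_mul]
  refine mul_le_mul_of_nonneg_left ((pow_diff R hR x y hx hy i).trans ?_) (norm_nonneg _)
  refine mul_le_mul_of_nonneg_left ?_ (norm_nonneg _)
  have hiD : i ≤ P.natDegree := Polynomial.le_natDegree_of_mem_supp i hi
  have hiR : (i : ℝ) ≤ P.natDegree := by exact_mod_cast hiD
  exact mul_le_mul hiR (pow_le_pow_right₀ hR hiD) (by positivity) (Nat.cast_nonneg _)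

private theorem mem_Ix {σ : ℚ} {J : ℕ} {a : Idx} (h : a ∈ Ix σ J) :
    a.1 ∈ nd J ∧ a.2 < mlt σ J a.1 := by
  unfold Ix at h
  rw [Finset.mem_sigma, Finset.mem_range] at h
  exact h

private theorem sq_le {J : ℕ} {x : ℤ × ℤ} (hx : x ∈ nd J) :
    (x.1 : ℝ) ^ 2 ≤ (J : ℝ) ^ 2 ∧ (x.2 : ℝ) ^ 2 ≤ (J : ℝ) ^ 2 := by
  unfold nd at hx
  rw [Finset.mem_product, Finset.mem_Icc, Finset.mem_Icc] at hx
  obtain ⟨⟨h1, h2⟩, h3, h4⟩ := hx
  have a1 : -(J : ℝ) ≤ (x.1 : ℝ) := by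
    have : ((-(J : ℤ) : ℤ) : ℝ) ≤ (x.1 : ℝ) := by exact_mod_cast h1
    push_cast at this
    exact this
  have a2 : (x.1 : ℝ) ≤ J := by exact_mod_cast h2
  have a3 : -(J : ℝ) ≤ (x.2 : ℝ) := by
    have : ((-(J : ℤ) : ℤ) : ℝ) ≤ (x.2 : ℝ) := by exact_mod_cast h3
    push_cast at this
    exact this
  have a4 : (x.2 : ℝ) ≤ J := by exact_mod_cast h4
  exact ⟨sq_le_sq' a1 a2, sq_le_sq' a3 a4⟩

theorem pf_DIFF (hLEN : T_LEN) (hEXB : Pool.Agent.H25.EE.T_EXB) (hCARD : T_CARD) : T_DIFF := by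
  intro O X0 π
  obtain ⟨C, hC, hlen⟩ := hLEN O X0 π
  have hq1 : 1 ≤ qq π := Nat.one_le_pow _ _ π.hr
  obtain ⟨R, hRdef⟩ : ∃ R : ℝ, R = ‖X0‖ + 1 := ⟨_, rfl⟩
  have hR1 : 1 ≤ R := by rw [hRdef]; linarith [norm_nonneg X0]
  have hlR : 0 ≤ Real.log R := Real.log_nonneg hR1
  have hqR : (1 : ℝ) ≤ qq π := by exact_mod_cast hq1
  refine ⟨2 + 2 * C + 2 * ((2 * qq π + 5) * (1 + Real.log R)), by positivity,
    fun J hJ a ha b hb x hx => ?_⟩
  obtain ⟨hdeg, hpl⟩ := hlen J hJ a ha b hb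
  obtain ⟨ha1, ha2⟩ := mem_Ix ha
  obtain ⟨hb1, hb2⟩ := mem_Ix hb
  have hJ2 : (2 : ℝ) ≤ J := by exact_mod_cast hJ
  have hJsq : (1 : ℝ) ≤ (J : ℝ) ^ 2 := one_le_pow₀ (by linarith)
  have ha3 : (a.2 : ℝ) ≤ (J : ℝ) ^ 2 := by
    have := ((hCARD (qq π) hq1).2.2.2.2 J a.1 ha1).1
    exact_mod_cast (ha2.le.trans this)
  have hb3 : (b.2 : ℝ) ≤ (J : ℝ) ^ 2 := by
    have := ((hCARD (qq π) hq1).2.2.2.2 J b.1 hb1).2
    exact_mod_cast (hb2.le.trans this)
  obtain ⟨q1, q2⟩ := sq_le ha1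
  obtain ⟨q3, q4⟩ := sq_le hb1
  have hEX := hEXB a b
  obtain ⟨P, hP⟩ : ∃ P : (↥O)[X], P = mm π J a b := ⟨_, rfl⟩
  rw [← hP] at hdeg hpl ⊢
  have hD : (P.natDegree : ℝ) ≤ (2 * qq π + 5) * (J : ℝ) ^ 2 := by
    have h1 : (P.natDegree : ℝ) ≤ (qq π : ℝ) * ((a.2 : ℝ) + b.2) + EX a b := by
      exact_mod_cast hdeg
    have h2 : (qq π : ℝ) * ((a.2 : ℝ) + b.2) ≤ (qq π : ℝ) * (2 * (J : ℝ) ^ 2) :=
      mul_le_mul_of_nonneg_left (by linarith) (by linarith)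
    nlinarith
  -- the two points
  have hee : ‖X0‖ ≤ R := by rw [hRdef]; linarith
  have hx4 : ‖x‖ ≤ R := by
    have : ‖x‖ ≤ ‖x - X0‖ + ‖X0‖ := by
      have := norm_add_le (x - X0) X0
      rwa [sub_add_cancel] at this
    rw [hRdef]
    linarith
  have h1 := ev_diff R hR1 P x X0 hx4 hee
  refine h1.trans (mul_le_mul_of_nonneg_left ?_ (norm_nonneg _))
  have hlog2 : (1 / 2 : ℝ) ≤ Real.log 2 := by
    have := Real.log_two_gt_d9
    linarith
  have hlogJ : Real.log 2 ≤ Real.log J := Real.log_le_log (by norm_num) hJ2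
  -- degree factor
  have hdf : (P.natDegree : ℝ) * R ^ P.natDegree ≤
      Real.exp ((2 * qq π + 5) * (J : ℝ) ^ 2 * (1 + Real.log R)) := by
    have h2 : (P.natDegree : ℝ) ≤ Real.exp (P.natDegree : ℝ) := by
      have := Real.add_one_le_exp (P.natDegree : ℝ)
      linarith
    have h4 : R ^ P.natDegree = Real.exp (P.natDegree * Real.log R) := by
      rw [mul_comm, Real.exp_mul, Real.exp_log (by linarith), Real.rpow_natCast]
    calc (P.natDegree : ℝ) * R ^ P.natDegree ≤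
          Real.exp (P.natDegree : ℝ) * Real.exp (P.natDegree * Real.log R) := by
          rw [h4]
          exact mul_le_mul_of_nonneg_right h2 (Real.exp_pos _).le
      _ = Real.exp (P.natDegree * (1 + Real.log R)) := by
          rw [← Real.exp_add]
          ring_nf
      _ ≤ _ := by
          apply Real.exp_le_exp.mpr
          exact mul_le_mul_of_nonneg_right hD (by linarith)
  have hpl0 : 0 ≤ plen P := Finset.sum_nonneg fun i _ => norm_nonneg _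
  calc plen P * (P.natDegree * R ^ P.natDegree) ≤
        Real.exp (((a.2 : ℝ) + b.2) * Real.log J + C * (J : ℝ) ^ 2) *
          Real.exp ((2 * qq π + 5) * (J : ℝ) ^ 2 * (1 + Real.log R)) :=
        mul_le_mul hpl hdf (by positivity) (Real.exp_pos _).le
    _ = Real.exp ((((a.2 : ℝ) + b.2) * Real.log J + C * (J : ℝ) ^ 2) +
          (2 * qq π + 5) * (J : ℝ) ^ 2 * (1 + Real.log R)) := (Real.exp_add _ _).symm
    _ ≤ Real.exp ((2 + 2 * C + 2 * ((2 * qq π + 5) * (1 + Real.log R))) * (J : ℝ) ^ 2 *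
          Real.log J) := by
        apply Real.exp_le_exp.mpr
        have hl0 : 0 ≤ Real.log J := by linarith
        have h2 : ((a.2 : ℝ) + b.2) * Real.log J ≤ 2 * (J : ℝ) ^ 2 * Real.log J :=
          mul_le_mul_of_nonneg_right (by linarith) hl0
        have h5 : (1 : ℝ) ≤ 2 * Real.log J := by linarith
        have h3 : (C + (2 * qq π + 5) * (1 + Real.log R)) * (J : ℝ) ^ 2 * 1 ≤
            (C + (2 * qq π + 5) * (1 + Real.log R)) * (J : ℝ) ^ 2 * (2 * Real.log J) :=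
          mul_le_mul_of_nonneg_left h5 (by positivity)
        nlinarith

end Pool.Agent.H1.EI.DIFF
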